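import Pool.Agent.SRQ.Grid

/-!
# Strongly regular graphs with `c = 2` and an induced grid (MP_6f6da3_co)
-/

set_option autoImplicit false

namespace Pool.Agent.Results.MP_6f6da3_co.InducedGrid

open Pool.Agent.SRQ

/-- A strongly regular graph with `c = 2` which contains the Cartesian product of two triangles as an
induced subgraph has `q = 3`. -/
theorem result (V : Type) [Fintype V] [DecidableEq V] (G : SimpleGraph V) [DecidableRel G.Adj]
    (n k a : ℕ) (hG : G.IsSRGWith n k a 2) (f : Fin 3 × Fin 3 → V) (hinj : Function.Injective f)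
    (hf : ∀ p q, G.Adj (f p) (f q) ↔ p ≠ q ∧ (p.1 = q.1 ∨ p.2 = q.2)) : qG G = 3 :=
  grid_three G n k a hG f hinj hf

end Pool.Agent.Results.MP_6f6da3_co.InducedGrid
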