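import Pool.Agent.SRQ.OddH

/-!
# Strongly regular graphs with `c = 2` and odd `a` (MP_6f6da3_co)
-/

set_option autoImplicit false

namespace Pool.Agent.Results.MP_6f6da3_co.OddLambda

open Pool.Agent.SRQ

/-- A strongly regular graph with parameters `(n, k; a, 2)`, not complete, `a` odd, has `q = 3` if
`a ≤ 17`, or `k ≤ 7 (a - 7) ^ 2`, or `64 k ≥ (a - 2) ^ 4`, or there is a maximal clique with at most `8`
or at least `a - 4` vertices. -/
theorem result (V : Type) [Fintype V] [DecidableEq V] (G : SimpleGraph V) [DecidableRel G.Adj]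
    (n k a : ℕ) (hG : G.IsSRGWith n k a 2) (hne : G ≠ ⊤) (ha : Odd a)
    (hd : a ≤ 17 ∨ k ≤ 7 * (a - 7) ^ 2 ∨ (a - 2) ^ 4 ≤ 64 * k ∨
      ∃ L : Finset V, Maximal G.IsClique (L : Set V) ∧ (L.card ≤ 8 ∨ a ≤ L.card + 4)) :
    qG G = 3 :=
  odd_three' G n k a hG hne ha hd

end Pool.Agent.Results.MP_6f6da3_co.OddLambda
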