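import Pool.Agent.SRQ.MbA

/-!
# The multiplicity bipartition of triangle-free strongly regular graphs (MP_6f6da3_co)
-/

set_option autoImplicit false

namespace Pool.Agent.Results.MP_6f6da3_co.TriangleFreeMB

open Pool.Agent.SRQ

/-- A strongly regular graph with parameters `(n, k; 0, c)`, `k > 0`, `c > 0`, `n ≠ 2 k` and `q = 2` has
`MB = n / 2`. -/
theorem result (V : Type) [Fintype V] [DecidableEq V] (G : SimpleGraph V) [DecidableRel G.Adj]
    (n k c : ℕ) (hG : G.IsSRGWith n k 0 c) (hk : 0 < k) (hc : 0 < c) (hn : 2 * k ≠ n)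
    (hq : qG G = 2) : 2 * MB G = n :=
  mb_half G n k c hG hk hc hn hq

end Pool.Agent.Results.MP_6f6da3_co.TriangleFreeMB
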