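import Pool.Agent.SRQ.EvC

/-!
# Strongly regular graphs with `c = 2`, `a` even and `k` congruent to two modulo four (MP_6f6da3_co)
-/

set_option autoImplicit false

namespace Pool.Agent.Results.MP_6f6da3_co.TwoModFour

open Pool.Agent.SRQ

/-- Let `G` be strongly regular with parameters `(n, k; a, 2)`, not complete, `a` even, `k` congruent to
two modulo four, `k > 2`. For a triangle let `t` be the number of vertices adjacent to its three
vertices. If no triangle has `t = a - 1` and all the numbers `t` have the same parity (for `a = 0` this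
is no condition), then `q = 3`. -/
theorem result (V : Type) [Fintype V] [DecidableEq V] (G : SimpleGraph V) [DecidableRel G.Adj]
    (n k a : ℕ) (hG : G.IsSRGWith n k a 2) (hne : G ≠ ⊤) (hk4 : k % 4 = 2) (hk2 : 2 < k)
    (ha : Even a) (e : ℕ)
    (ht : ∀ x y z, G.Adj x y → G.Adj x z → G.Adj y z →
      (Finset.univ.filter fun w => G.Adj x w ∧ G.Adj y w ∧ G.Adj z w).card + 1 < a ∧
      (Finset.univ.filter fun w => G.Adj x w ∧ G.Adj y w ∧ G.Adj z w).card % 2 = e % 2) :
    qG G = 3 :=
  two_mod_four G n k a hG hne hk4 hk2 ha e ht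

end Pool.Agent.Results.MP_6f6da3_co.TwoModFour
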